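import Pool.Agent.Q70.NilLie

/-!
# Dense orbits along `R_e`-sequences in minimal nilsystems (`MP_33f427_an`, positive answer to Q1)

Idea of the proof. Let `X = G / Γ`, let `L_m` be the lower central series and `D_m` the closure of
`L_m Γ`. For a non-principal ultrafilter `p` let `Q_m` be the set of the pairs `(x, y)` such that
`p`-almost all translates `a ^ n U` of every neighbourhood `U` of `x` meet every neighbourhood `V` of
`y`, modulo `D_m`. We show that `Q_{m+1}` is the full preimage of `Q_m`, hence of `Q_1`, for `m ≥ 1`;
the system `G / D_1` is equicontinuous, so the assumption on `A` provides enough ultrafilters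
containing `A`. For the induction step one needs that `Q_{m+1}` is invariant under the right
translations by `D_m` in the second variable. Otherwise there is a character of the compact abelian
group `D_m / D_{m+1}` which kills all good translations. Perturbing the initial point by `h_n → 1`,
`h_n ∈ L_{m-1}`, changes the end point by `[a, h_n] ^ n`, and this shows that the character kills
`[a, h]` for `h ∈ L_{m-1}`; a rigidity argument for the associated multilinear form on `G`
(characters of the compact group `G / D_1` form a discrete group, the identity component is
connected, `a` generates a dense subgroup of `G / D_1`) then shows that it is trivial.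
-/

set_option autoImplicit false

namespace Pool.Agent.Results.MP_33f427_an.NilsystemsDense

open Q70.Nil
open scoped Manifold ContDiff

universe u v

/-- **Theorem.** Let `A` be an `R_e`-sequence.

(1) Let `G` be a nilpotent Lie group, `Γ` a discrete cocompact subgroup and `a ∈ G` such that the
nilsystem `x ↦ a x` on `G / Γ` is minimal. Then there is a point of `G / Γ` whose orbit along `A` is
dense.

(2) More generally, this holds if `G` is a nilpotent locally path connected topological group and
`Γ` is a closed subgroup such that `G / Γ` is compact and second countable. -/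
theorem result (A : Set ℕ) (hA : IsReSequence.{u} A) :
    (∀ (E : Type v) [NormedAddCommGroup E] [NormedSpace ℝ E] [FiniteDimensional ℝ E]
      (G : Type u) [Group G] [TopologicalSpace G] [T2Space G] [ChartedSpace E G]
      [LieGroup 𝓘(ℝ, E) ∞ G] [Group.IsNilpotent G] (Γ : Subgroup G) [DiscreteTopology Γ]
      [CompactSpace (G ⧸ Γ)] (a : G), IsMinimalMap (fun x : G ⧸ Γ => a • x) →
        ∃ y, DenseAlong A (fun x : G ⧸ Γ => a • x) y) ∧
    (∀ (G : Type u) [Group G] [TopologicalSpace G] [IsTopologicalGroup G]
      [LocallyPathConnectedSpace G] [Group.IsNilpotent G] (Γ : Subgroup G),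
      IsClosed (Γ : Set G) → ∀ [CompactSpace (G ⧸ Γ)] [SecondCountableTopology (G ⧸ Γ)] (a : G),
        IsMinimalMap (fun x : G ⧸ Γ => a • x) →
          ∃ y, DenseAlong A (fun x : G ⧸ Γ => a • x) y) := by
  refine ⟨?_, ?_⟩
  · intro E _ _ _ G _ _ _ _ _ _ Γ _ _ a hmin
    exact main_lie (E := E) hA G Γ a hmin
  · intro G _ _ _ _ hnil Γ hΓ _ _ a hmin
    have := t2_quotient Γ hΓ
    exact main hA hnil Γ hΓ a hmin

end Pool.Agent.Results.MP_33f427_an.NilsystemsDense
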